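import Pool.Agent.Q166.HEy

/-!
# MP_ba6bee_co, Q1 (disproof)

The number `C(H, r)` of a real Hadamard matrix may depend on the deleted row `r`: there is a
Hadamard matrix of order 32 with `C(H, 8) ≤ 166` and `C(H, 17) ≥ 168`.
-/

namespace Pool.Agent.Results.MP_ba6bee_co.RowDep

open Finset Pool.Agent.Q166.HEx

/-- a real Hadamard matrix of order `n` (its entries are the integers `1` and `-1`) -/
def IsHadamard {n : ℕ} (H : Matrix (Fin n) (Fin n) ℤ) : Prop :=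
  (∀ i j, H i j = 1 ∨ H i j = -1) ∧ H * H.transpose = (n : ℤ) • (1 : Matrix (Fin n) (Fin n) ℤ)

/-- `C(H, r)`: the maximum over the sign vectors `a`, indexed by the rows other than `r`, of
`∑_j |∑_{i ≠ r} H_{ij} a_i|` -/
def C {n : ℕ} (H : Matrix (Fin n) (Fin n) ℤ) (r : Fin n) : ℤ :=
  (univ : Finset ({i : Fin n // i ≠ r} → ℤˣ)).sup' univ_nonempty
    (fun a => ∑ j, |∑ i : {i : Fin n // i ≠ r}, H i.1 j * (a i : ℤ)|)

theorem sum_sub {n : ℕ} (r : Fin n) (f : Fin n → ℤ) :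
    ∑ i : {i : Fin n // i ≠ r}, f i.1 = ∑ i ∈ univ.erase r, f i := by
  rw [← Finset.sum_subtype (univ.erase r) (p := fun i => i ≠ r) (fun x => by simp)]

theorem le_C {n : ℕ} (H : Matrix (Fin n) (Fin n) ℤ) (r : Fin n) (a : {i : Fin n // i ≠ r} → ℤˣ) :
    ∑ j, |∑ i : {i : Fin n // i ≠ r}, H i.1 j * ((a i : ℤˣ) : ℤ)| ≤ C H r :=
  Finset.le_sup' (s := (univ : Finset ({i : Fin n // i ≠ r} → ℤˣ)))
    (fun a => ∑ j, |∑ i : {i : Fin n // i ≠ r}, H i.1 j * ((a i : ℤˣ) : ℤ)|) (Finset.mem_univ a)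

theorem C_ge {n : ℕ} (H : Matrix (Fin n) (Fin n) ℤ) (r : Fin n) (a : Fin n → ℤˣ) :
    ∑ j, |∑ i ∈ univ.erase r, H i j * ((a i : ℤˣ) : ℤ)| ≤ C H r := by
  refine le_trans (le_of_eq ?_) (le_C H r (fun i => a i.1))
  refine Finset.sum_congr rfl fun j _ => ?_
  rw [sum_sub r (fun i => H i j * ((a i : ℤˣ) : ℤ))]

theorem C_le {n : ℕ} (H : Matrix (Fin n) (Fin n) ℤ) (r : Fin n) (B : ℤ)
    (hB : ∀ a : Fin n → ℤ, (∀ i, a i = 1 ∨ a i = -1) → ∑ j, |∑ i ∈ univ.erase r, H i j * a i| ≤ B) :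
    C H r ≤ B := by
  refine Finset.sup'_le _ _ fun a _ => ?_
  set a' : Fin n → ℤ := fun i => if h : i ≠ r then ((a ⟨i, h⟩ : ℤˣ) : ℤ) else 1 with ha'
  have h1 : ∀ i, a' i = 1 ∨ a' i = -1 := by
    intro i
    simp only [ha']
    split_ifs with h
    · rcases Int.units_eq_one_or (a ⟨i, h⟩) with h2 | h2 <;> rw [h2] <;> simp
    · left
      rfl
  refine le_trans (le_of_eq ?_) (hB a' h1)
  refine Finset.sum_congr rfl fun j _ => ?_
  rw [← sum_sub r (fun i => H i j * a' i)]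
  congr 1
  refine Finset.sum_congr rfl fun i _ => ?_
  simp only [ha']
  rw [dif_pos i.2]

theorem entH0 : ∀ i j : Fin 32, |H i j| = 1 := by decide +kernel

theorem entH : ∀ i j : Fin 32, H i j = 1 ∨ H i j = -1 := by
  intro i j
  have h := entH0 i j
  rcases abs_cases (H i j) with ⟨h1, _⟩ | ⟨h1, _⟩ <;> omega

theorem orthH : ∀ i j : Fin 32, ∑ k, H i k * H j k = if i = j then 32 else 0 := by decide +kernel

theorem hadH : IsHadamard H := by
  refine ⟨entH, ?_⟩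
  ext i j
  rw [Matrix.mul_apply, Matrix.smul_apply, Matrix.one_apply]
  simp only [Matrix.transpose_apply]
  rw [orthH i j]
  split_ifs <;> simp

/-- sign vector -/
def av : Fin 32 → ℤˣ := fun i => if (61374870 : ℕ).testBit i.val then -1 else 1

theorem lower0 : (168 : ℤ) ≤ ∑ j, |∑ i ∈ univ.erase (17 : Fin 32), H i j * ((av i : ℤˣ) : ℤ)| := by
  decide +kernel

theorem lowerC : 168 ≤ C H 17 := lower0.trans (C_ge H 17 av)

theorem upperC : C H 8 ≤ 166 := C_le H 8 166 upper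

/-- Answer to Q1: no. There are a real Hadamard matrix `H` of order `32` and rows `r ≠ s` with
`C(H, r) ≤ 166 < 168 ≤ C(H, s)`. -/
theorem result : ∃ H : Matrix (Fin 32) (Fin 32) ℤ, IsHadamard H ∧
    ∃ r s : Fin 32, r ≠ s ∧ C H r ≤ 166 ∧ 168 ≤ C H s ∧ C H r ≠ C H s := by
  refine ⟨H, hadH, 8, 17, by decide, upperC, lowerC, ?_⟩
  have h1 := upperC
  have h2 := lowerC
  omega

end Pool.Agent.Results.MP_ba6bee_co.RowDep
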